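import Pool.Agent.helper27.Probe.Defs

/-!
# Module M3: translation inequality
-/

open MeasureTheory Metric Set Filter Topology
open scoped ContDiff ENNReal

namespace Pool.Agent.helper27.Probe

private noncomputable def m3ν : Measure ℝ := volume.restrict (Ioc (0 : ℝ) 1)

private instance m3prob : IsProbabilityMeasure m3ν := ⟨by simp [m3ν]⟩

private theorem m3_meas (a : E) : Measurable (fun p : E × ℝ => p.1 + p.2 • a) := by fun_prop

/-- translation does not change the `L²` norm on the product with `(0, 1]` -/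
private theorem m3_lintegral {f : E → ℂ} (hf : StronglyMeasurable f) (a : E) :
    ∫⁻ p : E × ℝ, ‖f (p.1 + p.2 • a)‖ₑ ^ 2 ∂(volume.prod m3ν) = ∫⁻ y, ‖f y‖ₑ ^ 2 := by
  have hm : Measurable (fun p : E × ℝ => ‖f (p.1 + p.2 • a)‖ₑ ^ 2) :=
    ((hf.measurable.comp (m3_meas a)).enorm.pow_const 2)
  rw [lintegral_prod_symm' _ hm]
  have : ∀ t : ℝ, ∫⁻ y : E, ‖f (y + t • a)‖ₑ ^ 2 = ∫⁻ y, ‖f y‖ₑ ^ 2 := fun t =>
    lintegral_add_right_eq_self (fun y => ‖f y‖ₑ ^ 2) (t • a)
  simp only [this, lintegral_const, measure_univ, mul_one]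

private theorem m3_lt_top {α : Type*} {mα : MeasurableSpace α} {μ : Measure α} {f : α → ℂ}
    (hf : MemLp f 2 μ) : ∫⁻ y, ‖f y‖ₑ ^ 2 ∂μ < ⊤ := by
  have := (memLp_two_iff_integrable_sq_norm hf.aestronglyMeasurable).1 hf
  have h2 := this.2
  simp only [HasFiniteIntegral] at h2
  simpa [enorm_pow] using h2

private theorem m3_memLp_of {α : Type*} {mα : MeasurableSpace α} {μ : Measure α} {f : α → ℂ}
    (hf : AEStronglyMeasurable f μ) (h : ∫⁻ y, ‖f y‖ₑ ^ 2 ∂μ < ⊤) : MemLp f 2 μ := by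
  rw [memLp_two_iff_integrable_sq_norm hf]
  refine ⟨by fun_prop, ?_⟩
  simp only [HasFiniteIntegral]
  simpa [enorm_pow] using h

private theorem m3_memLp_prod {f : E → ℂ} (hf : StronglyMeasurable f) (h : MemLp f 2 volume)
    (a : E) : MemLp (fun p : E × ℝ => f (p.1 + p.2 • a)) 2 (volume.prod m3ν) := by
  refine m3_memLp_of ?_ ?_
  · exact (hf.comp_measurable (m3_meas a)).aestronglyMeasurable
  · rw [m3_lintegral hf a]
    exact m3_lt_top h

private theorem m3_memLp_fst {f : E → ℂ} (hf : StronglyMeasurable f) (h : MemLp f 2 volume) :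
    MemLp (fun p : E × ℝ => f p.1) 2 (volume.prod m3ν) := by
  simpa using m3_memLp_prod hf h 0

/-- test functions -/
private theorem m3_test {U : Set E} {a : E} {ψ : E → ℝ} (hψ : ContDiff ℝ ∞ ψ)
    (hc : HasCompactSupport ψ) (hs : tsupport ψ ⊆ {y | ∀ t ∈ Icc (0 : ℝ) 1, y + t • a ∈ U})
    {t : ℝ} (ht : t ∈ Icc (0 : ℝ) 1) : Test U (fun y => ((ψ (y - t • a) : ℝ) : ℂ)) := by
  have h1 : HasCompactSupport (fun y => ψ (y - t • a)) := by
    have := hc.comp_homeomorph (Homeomorph.subRight (t • a))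
    exact this
  have h2 : tsupport (fun y => ψ (y - t • a)) ⊆ U := by
    intro y hy
    have h3 : y - t • a ∈ tsupport ψ := by
      have := tsupport_comp_subset_preimage ψ (f := fun y : E => y - t • a) (by fun_prop) hy
      exact this
    have h4 := hs h3 t ht
    simpa using h4
  have h5 : (fun y => ((ψ (y - t • a) : ℝ) : ℂ)) = (fun x : ℝ => (x : ℂ)) ∘ fun y => ψ (y - t • a) :=
    rfl
  refine ⟨?_, ?_, ?_⟩
  · rw [h5]
    exact Complex.ofRealCLM.contDiff.comp (hψ.comp (by fun_prop))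
  · rw [h5]
    exact h1.comp_left (by simp)
  · rw [h5]
    exact (closure_mono (Function.support_comp_subset (by simp) _)).trans h2

private theorem m3_pd (ψ : E → ℝ) (hψ : ContDiff ℝ ∞ ψ) (b : E) (i : Fin 3) (y : E) :
    pd i (fun y => ((ψ (y - b) : ℝ) : ℂ)) y = ((fderiv ℝ ψ (y - b) (e i) : ℝ) : ℂ) := by
  unfold pd
  have h1 : HasFDerivAt ψ (fderiv ℝ ψ (y - b)) (y - b) :=
    (hψ.differentiable (by simp) _).hasFDerivAt
  have h2 : HasFDerivAt (fun y => ψ (y - b)) (fderiv ℝ ψ (y - b)) y := by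
    have := h1.comp y ((hasFDerivAt_id y).sub_const b)
    rw [ContinuousLinearMap.comp_id] at this
    exact this
  have h3 := Complex.ofRealCLM.hasFDerivAt.comp y h2
  have h4 : fderiv ℝ (fun y => ((ψ (y - b) : ℝ) : ℂ)) y = Complex.ofRealCLM ∘L fderiv ℝ ψ (y - b) :=
    h3.fderiv
  rw [h4]
  simp

private theorem m3_fderiv_a (ψ : E → ℝ) (a y : E) :
    fderiv ℝ ψ y a = ∑ i, a i * fderiv ℝ ψ y (e i) := by
  have h : a = ∑ i, a i • e i := by
    ext j
    simp [e, Fin.sum_univ_three]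
    fin_cases j <;> simp
  conv_lhs => rw [h]
  simp

/-- the hypotheses for strongly measurable functions on the whole space -/
private structure M3H (U : Set E) (V : E → ℂ) (G : Fin 3 → E → ℂ) : Prop where
  hV : StronglyMeasurable V
  hG : ∀ i, StronglyMeasurable (G i)
  mV : MemLp V 2 volume
  mG : ∀ i, MemLp (G i) 2 volume
  weak : ∀ φ, Test U φ → ∀ i, ∫ y, V y * pd i φ y = - ∫ y, G i y * φ y

/-- the directional derivative along the segment -/
private noncomputable def m3F (G : Fin 3 → E → ℂ) (a : E) (p : E × ℝ) : ℂ :=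
  ∑ i, (a i : ℂ) * G i (p.1 + p.2 • a)

private noncomputable def m3W (G : Fin 3 → E → ℂ) (a : E) (y : E) : ℂ := ∫ t, m3F G a (y, t) ∂m3ν

private theorem M3H.memLp_F {U : Set E} {V : E → ℂ} {G : Fin 3 → E → ℂ} (h : M3H U V G) (a : E) :
    MemLp (m3F G a) 2 (volume.prod m3ν) := by
  unfold m3F
  exact memLp_finsetSum _ fun i _ => (m3_memLp_prod (h.hG i) (h.mG i) a).const_mul _

private theorem M3H.meas_F {U : Set E} {V : E → ℂ} {G : Fin 3 → E → ℂ} (h : M3H U V G) (a : E) :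
    StronglyMeasurable (m3F G a) := by
  unfold m3F
  exact Finset.stronglyMeasurable_fun_sum _ fun i _ =>
    ((h.hG i).comp_measurable (m3_meas a)).const_mul _

private theorem M3H.meas_W {U : Set E} {V : E → ℂ} {G : Fin 3 → E → ℂ} (h : M3H U V G) (a : E) :
    StronglyMeasurable (m3W G a) := (h.meas_F a).integral_prod_right'

/-- pointwise bound -/
private theorem m3_jensen {f : ℝ → ℂ} (hf : AEStronglyMeasurable f m3ν) :
    ‖∫ t, f t ∂m3ν‖ₑ ^ 2 ≤ ∫⁻ t, ‖f t‖ₑ ^ 2 ∂m3ν := by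
  have h1 : ‖∫ t, f t ∂m3ν‖ₑ ≤ ∫⁻ t, ‖f t‖ₑ ∂m3ν := enorm_integral_le_lintegral_enorm _
  have h2 : eLpNorm f 1 m3ν ≤ eLpNorm f 2 m3ν :=
    eLpNorm_le_eLpNorm_of_exponent_le (by norm_num) hf
  rw [eLpNorm_one_eq_lintegral_enorm] at h2
  have h3 : (eLpNorm f 2 m3ν) ^ 2 = ∫⁻ t, ‖f t‖ₑ ^ 2 ∂m3ν := by
    rw [eLpNorm_eq_lintegral_rpow_enorm_toReal (by norm_num) (by norm_num)]
    simp only [ENNReal.toReal_ofNat, ENNReal.rpow_ofNat, one_div]
    rw [← ENNReal.rpow_ofNat, ← ENNReal.rpow_mul]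
    norm_num
  calc _ ≤ (eLpNorm f 2 m3ν) ^ 2 := by gcongr; exact h1.trans h2
    _ = _ := h3

private theorem m3_enorm_sq (z : ℂ) : ‖z‖ₑ ^ 2 = ENNReal.ofReal (‖z‖ ^ 2) := by
  rw [ENNReal.ofReal_pow (norm_nonneg _), ofReal_norm]

private theorem m3_cs (a : E) (G : Fin 3 → ℂ) :
    ‖∑ i, (a i : ℂ) * G i‖ₑ ^ 2 ≤ ENNReal.ofReal (‖a‖ ^ 2) * ∑ i, ‖G i‖ₑ ^ 2 := by
  have h1 : ‖∑ i, (a i : ℂ) * G i‖ ^ 2 ≤ ‖a‖ ^ 2 * ∑ i, ‖G i‖ ^ 2 := by
    have h2 : ‖∑ i, (a i : ℂ) * G i‖ ≤ ∑ i, |a i| * ‖G i‖ := by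
      refine (norm_sum_le _ _).trans (le_of_eq ?_)
      refine Finset.sum_congr rfl fun i _ => ?_
      rw [norm_mul, Complex.norm_real, Real.norm_eq_abs]
    have h3 : (∑ i, |a i| * ‖G i‖) ^ 2 ≤ (∑ i, |a i| ^ 2) * ∑ i, ‖G i‖ ^ 2 :=
      Finset.sum_mul_sq_le_sq_mul_sq _ _ _
    have h4 : ∑ i, |a i| ^ 2 = ‖a‖ ^ 2 := by
      rw [EuclideanSpace.norm_sq_eq]
      simp [Real.norm_eq_abs]
    rw [← h4]
    exact (pow_le_pow_left₀ (norm_nonneg _) h2 2).trans h3
  calc ‖∑ i, (a i : ℂ) * G i‖ₑ ^ 2 = ENNReal.ofReal (‖∑ i, (a i : ℂ) * G i‖ ^ 2) := m3_enorm_sq _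
    _ ≤ ENNReal.ofReal (‖a‖ ^ 2 * ∑ i, ‖G i‖ ^ 2) := ENNReal.ofReal_le_ofReal h1
    _ = ENNReal.ofReal (‖a‖ ^ 2) * ∑ i, ‖G i‖ₑ ^ 2 := by
      rw [ENNReal.ofReal_mul (by positivity), ENNReal.ofReal_sum_of_nonneg (fun i _ => by positivity)]
      simp only [m3_enorm_sq]

private theorem M3H.lint_W {U : Set E} {V : E → ℂ} {G : Fin 3 → E → ℂ} (h : M3H U V G) (a : E) :
    ∫⁻ y, ‖m3W G a y‖ₑ ^ 2 ≤ ENNReal.ofReal (‖a‖ ^ 2) * ∑ i, ∫⁻ y, ‖G i y‖ₑ ^ 2 := by
  have hF := h.meas_F a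
  calc ∫⁻ y, ‖m3W G a y‖ₑ ^ 2 ≤ ∫⁻ y, ∫⁻ t, ‖m3F G a (y, t)‖ₑ ^ 2 ∂m3ν :=
        lintegral_mono fun y => m3_jensen
          (hF.comp_measurable (measurable_const.prodMk measurable_id)).aestronglyMeasurable
    _ = ∫⁻ p, ‖m3F G a p‖ₑ ^ 2 ∂(volume.prod m3ν) :=
        (lintegral_prod _ ((hF.measurable.enorm.pow_const 2).aemeasurable)).symm
    _ ≤ ∫⁻ p : E × ℝ, ENNReal.ofReal (‖a‖ ^ 2) * ∑ i, ‖G i (p.1 + p.2 • a)‖ₑ ^ 2
          ∂(volume.prod m3ν) := lintegral_mono fun p => m3_cs a _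
    _ = ENNReal.ofReal (‖a‖ ^ 2) * ∑ i, ∫⁻ y, ‖G i y‖ₑ ^ 2 := by
        have hm : ∀ i, Measurable (fun p : E × ℝ => ‖G i (p.1 + p.2 • a)‖ₑ ^ 2) := fun i =>
          (((h.hG i).measurable.comp (m3_meas a)).enorm.pow_const 2)
        rw [lintegral_const_mul _ (Finset.measurable_fun_sum _ fun i _ => hm i),
          lintegral_finsetSum _ fun i _ => hm i]
        congr 1
        exact Finset.sum_congr rfl fun i _ => m3_lintegral (h.hG i) a

private theorem M3H.memLp_W {U : Set E} {V : E → ℂ} {G : Fin 3 → E → ℂ} (h : M3H U V G) (a : E) :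
    MemLp (m3W G a) 2 volume := by
  refine m3_memLp_of (h.meas_W a).aestronglyMeasurable ((h.lint_W a).trans_lt ?_)
  exact ENNReal.mul_lt_top ENNReal.ofReal_lt_top
    (ENNReal.sum_lt_top.2 fun i _ => m3_lt_top (h.mG i))

/-- the key identity -/
private theorem M3H.pairing {U : Set E} {V : E → ℂ} {G : Fin 3 → E → ℂ} (h : M3H U V G) (a : E)
    {ψ : E → ℝ} (hψ : ContDiff ℝ ∞ ψ) (hc : HasCompactSupport ψ)
    (hs : tsupport ψ ⊆ {y | ∀ t ∈ Icc (0 : ℝ) 1, y + t • a ∈ U}) :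
    ∫ y, (ψ y : ℂ) * (V (y + a) - V y) = ∫ y, (ψ y : ℂ) * m3W G a y := by
  have hψc : Continuous ψ := hψ.continuous
  have hdc : Continuous (fun y => fderiv ℝ ψ y a) :=
    (hψ.continuous_fderiv (by simp)).clm_apply continuous_const
  have hψ2 : MemLp (fun y => (ψ y : ℂ)) 2 volume :=
    (Complex.continuous_ofReal.comp hψc).memLp_of_hasCompactSupport (hc.comp_left (by simp))
  have hψm : StronglyMeasurable (fun y => (ψ y : ℂ)) :=
    (Complex.continuous_ofReal.comp hψc).stronglyMeasurable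
  have hd2 : MemLp (fun y => ((fderiv ℝ ψ y a : ℝ) : ℂ)) 2 volume :=
    (Complex.continuous_ofReal.comp hdc).memLp_of_hasCompactSupport
      ((hc.fderiv_apply (𝕜 := ℝ) a).comp_left (by simp))
  have hdm : StronglyMeasurable (fun y => ((fderiv ℝ ψ y a : ℝ) : ℂ)) :=
    (Complex.continuous_ofReal.comp hdc).stronglyMeasurable
  have hVa : MemLp (fun y => V (y + a)) 2 volume :=
    h.mV.comp_measurePreserving (measurePreserving_add_right volume a)
  have hψa : MemLp (fun y => (ψ (y - a) : ℂ)) 2 volume := by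
    have := hψ2.comp_measurePreserving (measurePreserving_add_right volume (-a))
    simpa [Function.comp_def, sub_eq_add_neg] using this
  -- step 1
  have e1 : ∫ y, (ψ y : ℂ) * (V (y + a) - V y) = ∫ y, V y * ((ψ (y - a) : ℂ) - (ψ y : ℂ)) := by
    have i1 : Integrable (fun y => (ψ y : ℂ) * V (y + a)) := hψ2.integrable_mul hVa
    have i2 : Integrable (fun y => (ψ y : ℂ) * V y) := hψ2.integrable_mul h.mV
    have i3 : Integrable (fun y => V y * (ψ (y - a) : ℂ)) := h.mV.integrable_mul hψa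
    have i4 : Integrable (fun y => V y * (ψ y : ℂ)) := h.mV.integrable_mul hψ2
    have e2 : ∫ y, (ψ y : ℂ) * V (y + a) = ∫ y, V y * (ψ (y - a) : ℂ) := by
      rw [← integral_add_right_eq_self (fun y => V y * (ψ (y - a) : ℂ)) a]
      simp [mul_comm]
    calc _ = ∫ y, ((ψ y : ℂ) * V (y + a) - (ψ y : ℂ) * V y) := by simp only [mul_sub]
      _ = (∫ y, V y * (ψ (y - a) : ℂ)) - ∫ y, V y * (ψ y : ℂ) := by
          rw [integral_sub i1 i2, e2]; simp only [mul_comm]
      _ = _ := by rw [← integral_sub i3 i4]; simp only [mul_sub]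
  -- step 2
  have e2 : ∀ y, ((ψ (y - a) : ℂ) - (ψ y : ℂ)) =
      - ∫ t, ((fderiv ℝ ψ (y + t • (-a)) a : ℝ) : ℂ) ∂m3ν := by
    intro y
    have h1 : ∀ t : ℝ, HasDerivAt (fun t : ℝ => ψ (y + t • (-a)))
        (- fderiv ℝ ψ (y + t • (-a)) a) t := by
      intro t
      have h2 : HasFDerivAt ψ (fderiv ℝ ψ (y + t • (-a))) (y + t • (-a)) :=
        (hψ.differentiable (by simp) _).hasFDerivAt
      have h3 : HasDerivAt (fun t : ℝ => y + t • (-a)) (-a) t := by
        have := ((hasDerivAt_id t).smul_const (-a)).const_add y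
        simpa using this
      have h4 := h2.comp_hasDerivAt t h3
      rw [map_neg] at h4
      exact h4
    have h5 : Continuous (fun t : ℝ => - fderiv ℝ ψ (y + t • (-a)) a) :=
      (hdc.comp (by fun_prop)).neg
    have h6 := intervalIntegral.integral_eq_sub_of_hasDerivAt (a := 0) (b := 1)
      (fun t _ => h1 t) (h5.intervalIntegrable _ _)
    rw [intervalIntegral.integral_of_le zero_le_one, integral_neg] at h6
    have h7 : (∫ t, ((fderiv ℝ ψ (y + t • (-a)) a : ℝ) : ℂ) ∂m3ν) =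
        ((∫ t in Ioc (0 : ℝ) 1, fderiv ℝ ψ (y + t • (-a)) a : ℝ) : ℂ) := integral_ofReal
    rw [h7]
    simp only [one_smul, zero_smul, add_zero, ← sub_eq_add_neg] at h6
    rw [← Complex.ofReal_neg, h6]
    push_cast
    rfl
  -- step 3
  have i5 : Integrable (fun p : E × ℝ => V p.1 * ((fderiv ℝ ψ (p.1 + p.2 • (-a)) a : ℝ) : ℂ))
      (volume.prod m3ν) :=
    (m3_memLp_fst h.hV h.mV).integrable_mul (m3_memLp_prod hdm hd2 (-a))
  have i6 : Integrable (fun p : E × ℝ => (ψ p.1 : ℂ) * m3F G a p) (volume.prod m3ν) :=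
    (m3_memLp_fst hψm hψ2).integrable_mul (h.memLp_F a)
  have e3 : ∫ y, V y * ((ψ (y - a) : ℂ) - (ψ y : ℂ)) =
      - ∫ t, (∫ y, V y * ((fderiv ℝ ψ (y + t • (-a)) a : ℝ) : ℂ)) ∂m3ν := by
    rw [← integral_integral_swap (f := fun (y : E) (t : ℝ) => V y *
      ((fderiv ℝ ψ (y + t • (-a)) a : ℝ) : ℂ)) i5, ← integral_neg]
    refine integral_congr_ae (Eventually.of_forall fun y => ?_)
    simp only [e2 y, mul_neg]
    rw [integral_const_mul]
  -- step 4
  have e4 : ∀ t ∈ Ioc (0 : ℝ) 1, ∫ y, V y * ((fderiv ℝ ψ (y + t • (-a)) a : ℝ) : ℂ) =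
      - ∫ y, (ψ y : ℂ) * m3F G a (y, t) := by
    intro t ht
    have hT := m3_test hψ hc hs (Ioc_subset_Icc_self ht)
    have hTc : Continuous (fun y => ((ψ (y - t • a) : ℝ) : ℂ)) := hT.smooth.continuous
    have hT2 : MemLp (fun y => ((ψ (y - t • a) : ℝ) : ℂ)) 2 volume :=
      hTc.memLp_of_hasCompactSupport hT.comp
    have hP2 : ∀ i, MemLp (fun y => pd i (fun y => ((ψ (y - t • a) : ℝ) : ℂ)) y) 2 volume := by
      intro i
      refine Continuous.memLp_of_hasCompactSupport ?_ ?_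
      · exact (hT.smooth.continuous_fderiv (by simp)).clm_apply continuous_const
      · exact hT.comp.fderiv_apply (𝕜 := ℝ) (e i)
    have j1 : ∀ i ∈ (Finset.univ : Finset (Fin 3)), Integrable (fun y => (a i : ℂ) *
        (V y * pd i (fun y => ((ψ (y - t • a) : ℝ) : ℂ)) y)) := fun i _ =>
      (h.mV.integrable_mul (hP2 i)).const_mul _
    have j2 : ∀ i ∈ (Finset.univ : Finset (Fin 3)), Integrable (fun y => (a i : ℂ) *
        (G i y * ((ψ (y - t • a) : ℝ) : ℂ))) := fun i _ =>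
      ((h.mG i).integrable_mul hT2).const_mul _
    calc ∫ y, V y * ((fderiv ℝ ψ (y + t • (-a)) a : ℝ) : ℂ)
        = ∫ y, ∑ i, (a i : ℂ) * (V y * pd i (fun y => ((ψ (y - t • a) : ℝ) : ℂ)) y) := by
          refine integral_congr_ae (Eventually.of_forall fun y => ?_)
          simp only
          rw [m3_fderiv_a ψ a, smul_neg, ← sub_eq_add_neg]
          push_cast
          rw [Finset.mul_sum]
          refine Finset.sum_congr rfl fun i _ => ?_
          rw [m3_pd ψ hψ]
          ring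
      _ = ∑ i, (a i : ℂ) * ∫ y, V y * pd i (fun y => ((ψ (y - t • a) : ℝ) : ℂ)) y := by
          rw [integral_finsetSum _ j1]
          refine Finset.sum_congr rfl fun i _ => ?_
          rw [integral_const_mul]
      _ = ∑ i, (a i : ℂ) * - ∫ y, G i y * ((ψ (y - t • a) : ℝ) : ℂ) := by
          refine Finset.sum_congr rfl fun i _ => ?_
          rw [h.weak _ hT i]
      _ = - ∫ y, ∑ i, (a i : ℂ) * (G i y * ((ψ (y - t • a) : ℝ) : ℂ)) := by
          rw [integral_finsetSum _ j2, ← Finset.sum_neg_distrib]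
          refine Finset.sum_congr rfl fun i _ => ?_
          rw [integral_const_mul]
          ring
      _ = - ∫ y, (ψ y : ℂ) * m3F G a (y, t) := by
          rw [← integral_add_right_eq_self (fun y => ∑ i, (a i : ℂ) *
            (G i y * ((ψ (y - t • a) : ℝ) : ℂ))) (t • a)]
          congr 1
          refine integral_congr_ae (Eventually.of_forall fun y => ?_)
          simp only [m3F, add_sub_cancel_right, Finset.mul_sum]
          refine Finset.sum_congr rfl fun i _ => ?_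
          ring
  -- step 5
  rw [e1, e3]
  have e5 : ∫ t, (∫ y, V y * ((fderiv ℝ ψ (y + t • (-a)) a : ℝ) : ℂ)) ∂m3ν =
      ∫ t, (- ∫ y, (ψ y : ℂ) * m3F G a (y, t)) ∂m3ν := by
    unfold m3ν
    exact setIntegral_congr_fun measurableSet_Ioc e4
  rw [e5, integral_neg, neg_neg, ← integral_integral_swap (f := fun (y : E) (t : ℝ) => (ψ y : ℂ) *
    m3F G a (y, t)) i6]
  refine integral_congr_ae (Eventually.of_forall fun y => ?_)
  simp only [m3W]
  rw [integral_const_mul]

private theorem m3_open {U : Set E} (hU : IsOpen U) (a : E) :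
    IsOpen {y : E | ∀ t ∈ Icc (0 : ℝ) 1, y + t • a ∈ U} := by
  rw [isOpen_iff_eventually]
  intro y hy
  refine isCompact_Icc.eventually_forall_of_forall_eventually fun t ht => ?_
  have hc : Continuous fun p : E × ℝ => p.1 + p.2 • a := by fun_prop
  exact hc.continuousAt.eventually (hU.mem_nhds (hy t ht))

/-- the identity almost everywhere -/
private theorem M3H.ae_eq {U : Set E} (hU : IsOpen U) {V : E → ℂ} {G : Fin 3 → E → ℂ}
    (h : M3H U V G) (a : E) :
    ∀ᵐ y, (∀ t ∈ Icc (0 : ℝ) 1, y + t • a ∈ U) → V (y + a) - V y = m3W G a y := by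
  have hVa : MemLp (fun y => V (y + a)) 2 volume :=
    h.mV.comp_measurePreserving (measurePreserving_add_right volume a)
  have hm : MemLp (fun y => V (y + a) - V y - m3W G a y) 2 volume :=
    (hVa.sub h.mV).sub (h.memLp_W a)
  have hl : LocallyIntegrable (fun y => V (y + a) - V y - m3W G a y) volume :=
    hm.locallyIntegrable (by norm_num)
  have h1 := (m3_open hU a).ae_eq_zero_of_integral_contDiff_smul_eq_zero
    (hl.locallyIntegrableOn _) (fun ψ hψ hc hs => ?_)
  · filter_upwards [h1] with y hy hyt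
    exact sub_eq_zero.1 (hy hyt)
  · have hψ2 : MemLp (fun y => (ψ y : ℂ)) 2 volume :=
      (Complex.continuous_ofReal.comp hψ.continuous).memLp_of_hasCompactSupport
        (hc.comp_left (by simp))
    have i1 : Integrable (fun y => (ψ y : ℂ) * (V (y + a) - V y)) :=
      hψ2.integrable_mul (hVa.sub h.mV)
    have i2 : Integrable (fun y => (ψ y : ℂ) * m3W G a y) := hψ2.integrable_mul (h.memLp_W a)
    have h2 := h.pairing a hψ hc hs
    calc ∫ y, ψ y • (V (y + a) - V y - m3W G a y)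
        = ∫ y, ((ψ y : ℂ) * (V (y + a) - V y) - (ψ y : ℂ) * m3W G a y) := by
          refine integral_congr_ae (Eventually.of_forall fun y => ?_)
          simp only [Complex.real_smul]
          ring
      _ = 0 := by rw [integral_sub i1 i2, h2, sub_self]

theorem trans_ineq {U : Set E} (hU : IsOpen U) {v : E → ℂ} {g : Fin 3 → E → ℂ} (hv : H1 U v g)
    {A : Set E} (hA : MeasurableSet A) (a : E) (h : ∀ y ∈ A, ∀ t ∈ Icc (0 : ℝ) 1, y + t • a ∈ U) :
    MemLp (fun y => v (y + a) - v y) 2 (volume.restrict A) ∧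
    ∫ y in A, ‖v (y + a) - v y‖ ^ 2 ≤ ‖a‖ ^ 2 * ∑ i, sq U (g i) := by
  have hUm := hU.measurableSet
  -- representatives
  have mv : MemLp (U.indicator v) 2 volume := (memLp_indicator_iff_restrict hUm).2 hv.memLp
  have mg : ∀ i, MemLp (U.indicator (g i)) 2 volume := fun i =>
    (memLp_indicator_iff_restrict hUm).2 (hv.memLp_grad i)
  set V := mv.1.mk (U.indicator v) with hVdef
  set G : Fin 3 → E → ℂ := fun i => (mg i).1.mk (U.indicator (g i)) with hGdef
  have aV : U.indicator v =ᵐ[volume] V := mv.1.ae_eq_mk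
  have aG : ∀ i, U.indicator (g i) =ᵐ[volume] G i := fun i => (mg i).1.ae_eq_mk
  have hH : M3H U V G := by
    refine ⟨mv.1.stronglyMeasurable_mk, fun i => (mg i).1.stronglyMeasurable_mk,
      mv.ae_eq aV, fun i => (mg i).ae_eq (aG i), fun φ hφ i => ?_⟩
    have h0 : ∀ y ∉ U, φ y = 0 := fun y hy => image_eq_zero_of_notMem_tsupport fun h =>
      hy (hφ.supp h)
    have h1 : ∀ y ∉ U, pd i φ y = 0 := fun y hy => by
      have h2 : y ∉ tsupport (fderiv ℝ φ) := fun h => hy (hφ.supp (tsupport_fderiv_subset ℝ h))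
      unfold pd
      rw [image_eq_zero_of_notMem_tsupport h2]
      rfl
    calc ∫ y, V y * pd i φ y = ∫ y, U.indicator v y * pd i φ y :=
          integral_congr_ae (by filter_upwards [aV] with y hy; rw [hy])
      _ = ∫ y, U.indicator (fun y => v y * pd i φ y) y := by
          refine integral_congr_ae (Eventually.of_forall fun y => ?_)
          by_cases hy : y ∈ U
          · simp [hy]
          · simp [hy]
      _ = ∫ y in U, v y * pd i φ y := integral_indicator hUm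
      _ = - ∫ y in U, g i y * φ y := hv.weak φ hφ i
      _ = - ∫ y, U.indicator (fun y => g i y * φ y) y := by rw [integral_indicator hUm]
      _ = - ∫ y, U.indicator (g i) y * φ y := by
          congr 1
          refine integral_congr_ae (Eventually.of_forall fun y => ?_)
          by_cases hy : y ∈ U
          · simp [hy]
          · simp [hy]
      _ = - ∫ y, G i y * φ y := by
          congr 1
          exact integral_congr_ae (by filter_upwards [aG i] with y hy; rw [hy])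
  -- the difference on `A`
  have hA0 : ∀ y ∈ A, y ∈ U := fun y hy => by simpa using h y hy 0 (by simp)
  have hA1 : ∀ y ∈ A, y + a ∈ U := fun y hy => by simpa using h y hy 1 (by simp)
  have aVa : ∀ᵐ y, U.indicator v (y + a) = V (y + a) :=
    (measurePreserving_add_right volume a).quasiMeasurePreserving.ae aV
  have key : ∀ᵐ y ∂(volume.restrict A), v (y + a) - v y = m3W G a y := by
    rw [ae_restrict_iff' hA]
    filter_upwards [aV, aVa, hH.ae_eq hU a] with y h1 h2 h3 hy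
    rw [indicator_of_mem (hA0 y hy)] at h1
    rw [indicator_of_mem (hA1 y hy)] at h2
    rw [h1, h2]
    exact h3 (h y hy)
  have hmem : MemLp (fun y => v (y + a) - v y) 2 (volume.restrict A) :=
    ((hH.memLp_W a).restrict A).ae_eq (by filter_upwards [key] with y hy; exact hy.symm)
  refine ⟨hmem, ?_⟩
  have e1 : ∫ y in A, ‖v (y + a) - v y‖ ^ 2 = (∫⁻ y in A, ‖m3W G a y‖ₑ ^ 2).toReal := by
    rw [integral_eq_lintegral_of_nonneg_ae (f := fun y => ‖v (y + a) - v y‖ ^ 2)
      (Eventually.of_forall fun y => by positivity) (hmem.1.norm.pow 2)]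
    congr 1
    refine lintegral_congr_ae ?_
    filter_upwards [key] with y hy
    rw [hy, m3_enorm_sq]
  have e2 : ∀ i, ∫⁻ y, ‖G i y‖ₑ ^ 2 = ENNReal.ofReal (sq U (g i)) := by
    intro i
    unfold sq
    rw [ofReal_integral_eq_lintegral_ofReal
      ((memLp_two_iff_integrable_sq_norm (hv.memLp_grad i).1).1 (hv.memLp_grad i))
      (Eventually.of_forall fun y => by positivity), ← lintegral_indicator hUm]
    refine lintegral_congr_ae ?_
    filter_upwards [aG i] with y hy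
    rw [← hy]
    by_cases hyU : y ∈ U
    · simp only [indicator_of_mem hyU, m3_enorm_sq]
    · simp [indicator_of_notMem hyU]
  have e3 : 0 ≤ ‖a‖ ^ 2 * ∑ i, sq U (g i) := by
    refine mul_nonneg (by positivity) (Finset.sum_nonneg fun i _ => ?_)
    exact integral_nonneg fun y => by positivity
  have hsq : ∀ i, 0 ≤ sq U (g i) := fun i => integral_nonneg fun y => by positivity
  rw [e1]
  refine ENNReal.toReal_le_of_le_ofReal e3 ?_
  calc ∫⁻ y in A, ‖m3W G a y‖ₑ ^ 2 ≤ ∫⁻ y, ‖m3W G a y‖ₑ ^ 2 := setLIntegral_le_lintegral _ _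
    _ ≤ ENNReal.ofReal (‖a‖ ^ 2) * ∑ i, ∫⁻ y, ‖G i y‖ₑ ^ 2 := hH.lint_W a
    _ = ENNReal.ofReal (‖a‖ ^ 2 * ∑ i, sq U (g i)) := by
        rw [ENNReal.ofReal_mul (by positivity), ENNReal.ofReal_sum_of_nonneg
          (fun i _ => hsq i)]
        simp only [e2]

end Pool.Agent.helper27.Probe
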