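import Pool.Agent.helper27.Probe.Defs

/-!
# Module M2: the boundary is a null set
-/

open MeasureTheory Metric Set Filter Topology
open scoped ContDiff ENNReal

namespace Pool.Agent.helper27.Probe

theorem null_frontier {U : Set E} (hU : IsOpen U) (h : InnerShift U) :
    volume (frontier U) = 0 := by
  set S := frontier U with hS
  have hSm : MeasurableSet S := isClosed_frontier.measurableSet
  have h1 : ∀ᵐ x ∂(volume.restrict S), ∀ n : ℕ, ∀ (w : ℕ → E) (δ : ℕ → ℝ),
      Tendsto δ atTop (𝓝[>] 0) → (∀ᶠ j in atTop, x ∈ closedBall (w j) ((n : ℝ) * δ j)) →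
      Tendsto (fun j => volume (S ∩ closedBall (w j) (δ j)) / volume (closedBall (w j) (δ j)))
        atTop (𝓝 1) := by
    rw [ae_all_iff]
    intro n
    filter_upwards [IsUnifLocDoublingMeasure.ae_tendsto_measure_inter_div volume S n] with x hx w δ
    exact hx w δ
  have h2 : ∀ᵐ x ∂(volume.restrict S), False := by
    filter_upwards [h1, ae_restrict_mem hSm] with p hp hpS
    obtain ⟨r, hr, a, c, hc, δ, hδ, ha, hsh⟩ := h p hpS
    obtain ⟨n, hn⟩ := exists_nat_ge (4 / c)
    have hpc : p ∈ closure U := frontier_subset_closure hpS
    set m := min r δ with hm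
    have hm0 : 0 < m := lt_min hr hδ
    set s : ℕ → ℝ := fun j => m / (j + 2) with hs
    have hs0 : ∀ j, 0 < s j := fun j => by simp only [hs]; positivity
    have hsm : ∀ j, s j < m := fun j => by
      simp only [hs]
      rw [div_lt_iff₀ (by positivity)]
      nlinarith [(Nat.cast_nonneg j : (0 : ℝ) ≤ j)]
    have hy : ∀ j, ∃ y ∈ U, dist p y < s j := fun j => Metric.mem_closure_iff.1 hpc _ (hs0 j)
    choose y hyU hyd using hy
    have hst : Tendsto s atTop (𝓝 0) := by
      have h3 : Tendsto (fun j : ℕ => (j : ℝ) + 2) atTop atTop :=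
        tendsto_atTop_add_const_right _ _ tendsto_natCast_atTop_atTop
      exact tendsto_const_nhds.div_atTop h3
    have h4 := hp n (fun j => y j + s j • a) (fun j => c / 2 * s j) (by
      rw [tendsto_nhdsWithin_iff]
      refine ⟨?_, Eventually.of_forall fun j => ?_⟩
      · simpa using hst.const_mul (c / 2)
      · have := hs0 j
        exact mem_Ioi.2 (by positivity)) (by
      refine Eventually.of_forall fun j => ?_
      rw [mem_closedBall]
      have h5 : dist p (y j + s j • a) ≤ s j + s j := by
        calc dist p (y j + s j • a) ≤ dist p (y j) + dist (y j) (y j + s j • a) :=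
              dist_triangle _ _ _
          _ ≤ s j + s j := by
              refine add_le_add (hyd j).le ?_
              rw [dist_self_add_right, norm_smul, ha, mul_one, Real.norm_eq_abs,
                abs_of_pos (hs0 j)]
      have h6 : 4 ≤ n * c := by
        rwa [div_le_iff₀ hc] at hn
      have := hs0 j
      nlinarith)
    have h5 : ∀ j, S ∩ closedBall (y j + s j • a) (c / 2 * s j) = ∅ := by
      intro j
      have h6 : closedBall (y j + s j • a) (c / 2 * s j) ⊆ U := by
        refine (closedBall_subset_ball ?_).trans (hsh (y j) ⟨?_, hyU j⟩ (s j) ⟨hs0 j, ?_⟩)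
        · have := hs0 j
          nlinarith
        · rw [mem_ball, dist_comm]
          exact (hyd j).trans ((hsm j).trans_le (min_le_left _ _))
        · exact (hsm j).trans_le (min_le_right _ _)
      have h7 : Disjoint S U := by
        rw [hS]
        exact (disjoint_frontier_iff_isOpen.2 hU)
      exact (h7.mono_right h6).inter_eq
    simp only [h5, measure_empty, ENNReal.zero_div] at h4
    exact zero_ne_one (tendsto_nhds_unique tendsto_const_nhds h4)
  rw [ae_iff] at h2
  simpa using h2

end Pool.Agent.helper27.Probe
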