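import Pool.Agent.helper61.Probe.M8b
import Pool.Agent.helper61.Probe.M3
import Pool.Agent.helper88.Probe.M5
import Pool.Agent.helper74.Probe.M6
import Pool.Agent.helper14.Probe.M1

/-!
# Module M8: the mixed problem in `Ω \ closure D`
-/

open MeasureTheory Metric Set Filter Topology
open scoped ContDiff ENNReal

namespace Pool.Agent.helper27.Probe

private theorem m8_rellich {Ω D : Set E} (hG : Geometry Ω D) : M8.Rellich (Ω \ closure D) := by
  intro v g hv C hC
  have hU : IsOpen (Ω \ closure D) := hG.openΩ.sdiff isClosed_closure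
  exact helper74.Probe.rellich' (fun hU _ _ hv _ hA a h => trans_ineq hU hv hA a h)
    (fun hU hK hKU _ _ hv _ hC _ hε => helper88.Probe.interior_compact
      (fun hU _ _ hv _ hA a h => trans_ineq hU hv hA a h) hU hK hKU hv hC hε)
    hU (hG.bddΩ.subset sdiff_subset) (shift_U hG) hv hC

theorem exists_sol {k : ℝ} {Ω D : Set E} (hG : Geometry Ω D) (hk : 0 < k) (hN : NotEigen k Ω D)
    {v : E → ℂ} {g : Fin 3 → E → ℂ} (hv : H1 Ω v g) : ∃ u h, MixedSol k Ω D v g u h := by
  have hU : IsOpen (Ω \ closure D) := hG.openΩ.sdiff isClosed_closure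
  have hvU : H1 (Ω \ closure D) v g := hv.mono hG.openΩ hU sdiff_subset
  obtain ⟨w, h, hw, hh⟩ := M8.exists_w hU (m8_rellich hG) hN hvU
  refine ⟨fun y => v y + w y, fun i y => g i y + h i y, hvU.add hw.1, hh, ?_⟩
  have e1 : (fun y => v y + w y - v y) = w := by funext y; ring
  have e2 : (fun i y => g i y + h i y - g i y) = h := by funext i y; ring
  rw [e1, e2]
  exact hw

theorem wnull {k : ℝ} {Ω D : Set E} (hG : Geometry Ω D) (hk : 0 < k) (hN : NotEigen k Ω D)
    {w : ℕ → E → ℂ} {h : ℕ → Fin 3 → E → ℂ} (hw : ∀ n, ZeroOuter Ω D (w n) (h n)) {C : ℝ}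
    (hC : ∀ n, en (Ω \ closure D) (w n) (h n) ≤ C)
    (hφ : ∀ φ, Test Ω φ → Tendsto (fun n => (∫ y in Ω \ closure D, ∑ i, h n i y * pd i φ y) -
      (k : ℂ) ^ 2 * ∫ y in Ω \ closure D, w n y * φ y) atTop (𝓝 0)) :
    Tendsto (fun n => sq (Ω \ closure D) (w n)) atTop (𝓝 0) :=
  M8.w_null (hG.openΩ.sdiff isClosed_closure) (m8_rellich hG) hN hw hC hφ

end Pool.Agent.helper27.Probe
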