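import Mathlib

/-!
# Module M7: abstract Fredholm lemmas
-/

open Filter Topology
open scoped ComplexConjugate

namespace Pool.Agent.helper27.Probe

section

variable {V H : Type} [NormedAddCommGroup V] [InnerProductSpace ℂ V]
    [CompleteSpace V] [NormedAddCommGroup H] [InnerProductSpace ℂ H] [CompleteSpace H]

private noncomputable def m7R (J : V →L[ℂ] H) (μ : ℝ) : V →L[ℂ] V :=
  1 - (μ : ℂ) • (ContinuousLinearMap.adjoint J ∘L J)

private theorem m7_inner (J : V →L[ℂ] H) (μ : ℝ) (φ w : V) :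
    inner ℂ φ (m7R J μ w) = inner ℂ φ w - (μ : ℂ) * inner ℂ (J φ) (J w) := by
  simp only [m7R, ContinuousLinearMap.sub_apply, ContinuousLinearMap.one_apply,
    ContinuousLinearMap.smul_apply, ContinuousLinearMap.comp_apply, inner_sub_right,
    inner_smul_right, ContinuousLinearMap.adjoint_inner_right]

private theorem m7_inner' (J : V →L[ℂ] H) (μ : ℝ) (φ w : V) :
    inner ℂ (m7R J μ w) φ = inner ℂ w φ - (μ : ℂ) * inner ℂ (J w) (J φ) := by
  rw [← inner_conj_symm, m7_inner]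
  simp [inner_conj_symm]

private theorem m7_unit (J : V →L[ℂ] H) (hJ : IsCompactOperator J) (μ : ℝ)
    (hinj : ∀ w : V, (∀ φ : V, inner ℂ φ w - (μ : ℂ) * inner ℂ (J φ) (J w) = 0) → w = 0) :
    IsUnit (m7R J μ) := by
  by_cases hμ : μ = 0
  · subst hμ
    simp [m7R]
  · have hμ' : (μ : ℂ) ≠ 0 := by exact_mod_cast hμ
    have hT : IsCompactOperator (ContinuousLinearMap.adjoint J ∘L J) :=
      hJ.clm_comp (ContinuousLinearMap.adjoint J)
    rcases hT.hasEigenvalue_or_mem_resolventSet (inv_ne_zero hμ') with h | h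
    · exfalso
      obtain ⟨w, hw⟩ := h.exists_hasEigenvector
      refine hw.2 (hinj w fun φ => ?_)
      rw [← m7_inner]
      have h1 : (ContinuousLinearMap.adjoint J ∘L J) w = (μ : ℂ)⁻¹ • w := hw.apply_eq_smul
      have h2 : m7R J μ w = 0 := by
        simp only [m7R, ContinuousLinearMap.sub_apply, ContinuousLinearMap.one_apply,
          ContinuousLinearMap.smul_apply, h1, smul_smul, mul_inv_cancel₀ hμ', one_smul, sub_self]
      rw [h2, inner_zero_right]
    · have h1 : IsUnit (algebraMap ℂ (V →L[ℂ] V) (μ : ℂ)⁻¹ - (ContinuousLinearMap.adjoint J ∘L J)) := h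
      have h2 : m7R J μ = algebraMap ℂ (V →L[ℂ] V) (μ : ℂ) * (algebraMap ℂ (V →L[ℂ] V) (μ : ℂ)⁻¹ -
          (ContinuousLinearMap.adjoint J ∘L J)) := by
        rw [mul_sub, ← map_mul, mul_inv_cancel₀ hμ', map_one, ← Algebra.smul_def]
        rfl
      rw [h2]
      exact (IsUnit.map _ (isUnit_iff_ne_zero.2 hμ')).mul h1

theorem fredholm_exists
    (J : V →L[ℂ] H) (hJ : IsCompactOperator J) (μ : ℝ)
    (hinj : ∀ w : V, (∀ φ : V, inner ℂ φ w - (μ : ℂ) * inner ℂ (J φ) (J w) = 0) → w = 0)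
    (F : V →L[ℂ] ℂ) :
    ∃ w : V, ∀ φ : V, inner ℂ w φ - (μ : ℂ) * inner ℂ (J w) (J φ) = F φ := by
  obtain ⟨u, hu⟩ := m7_unit J hJ μ hinj
  refine ⟨(↑u⁻¹ : V →L[ℂ] V) ((InnerProductSpace.toDual ℂ V).symm F), fun φ => ?_⟩
  rw [← m7_inner', ← hu]
  have h1 : (u : V →L[ℂ] V) ((↑u⁻¹ : V →L[ℂ] V) ((InnerProductSpace.toDual ℂ V).symm F)) =
      (InnerProductSpace.toDual ℂ V).symm F := by
    rw [← ContinuousLinearMap.mul_apply, Units.mul_inv]
    rfl
  rw [h1, InnerProductSpace.toDual_symm_apply]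

theorem fredholm_null
    (J : V →L[ℂ] H) (hJ : IsCompactOperator J) (μ : ℝ)
    (hinj : ∀ w : V, (∀ φ : V, inner ℂ φ w - (μ : ℂ) * inner ℂ (J φ) (J w) = 0) → w = 0)
    (w : ℕ → V) (C : ℝ) (hw : ∀ n, ‖w n‖ ≤ C) (S : Set V) (hS : Dense S)
    (h : ∀ φ ∈ S, Tendsto (fun n => inner ℂ φ (w n) - (μ : ℂ) * inner ℂ (J φ) (J (w n)))
      atTop (𝓝 0)) :
    Tendsto (fun n => ‖J (w n)‖) atTop (𝓝 0) := by
  obtain ⟨u, hu⟩ := m7_unit J hJ μ hinj
  have hC : 0 ≤ C := (norm_nonneg _).trans (hw 0)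
  have h1 : ∀ φ ∈ S, Tendsto (fun n => inner ℂ φ (m7R J μ (w n))) atTop (𝓝 0) := fun φ hφ => by
    simpa only [m7_inner] using h φ hφ
  have hb : ∀ n, ‖m7R J μ (w n)‖ ≤ ‖m7R J μ‖ * C := fun n =>
    (ContinuousLinearMap.le_opNorm _ _).trans (mul_le_mul_of_nonneg_left (hw n) (norm_nonneg _))
  have h2 : ∀ φ, Tendsto (fun n => inner ℂ φ (m7R J μ (w n))) atTop (𝓝 0) := by
    intro φ
    rw [Metric.tendsto_atTop]
    intro ε hε
    set B := ‖m7R J μ‖ * C + 1 with hB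
    have hB0 : 0 < B := by positivity
    obtain ⟨ψ, hψS, hψ⟩ := hS.exists_dist_lt φ (show 0 < ε / (2 * B) by positivity)
    obtain ⟨N, hN⟩ := (Metric.tendsto_atTop.1 (h1 ψ hψS)) (ε / 2) (by positivity)
    refine ⟨N, fun n hn => ?_⟩
    have h3 := hN n hn
    rw [dist_zero_right] at h3 ⊢
    have h4 : inner ℂ φ (m7R J μ (w n)) = inner ℂ (φ - ψ) (m7R J μ (w n)) +
        inner ℂ ψ (m7R J μ (w n)) := by
      rw [inner_sub_left]; ring
    rw [h4]
    have h5 : ‖inner ℂ (φ - ψ) (m7R J μ (w n))‖ ≤ ε / (2 * B) * B := by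
      refine (norm_inner_le_norm _ _).trans (mul_le_mul ?_ ?_ (norm_nonneg _) (by positivity))
      · rw [← dist_eq_norm]; exact hψ.le
      · exact (hb n).trans (by linarith)
    have h6 : ε / (2 * B) * B = ε / 2 := by field_simp
    calc _ ≤ ‖inner ℂ (φ - ψ) (m7R J μ (w n))‖ + ‖inner ℂ ψ (m7R J μ (w n))‖ := norm_add_le _ _
      _ < ε := by linarith
  have h3 : ∀ φ, Tendsto (fun n => inner ℂ φ (w n)) atTop (𝓝 0) := by
    intro φ
    have h4 := h2 (ContinuousLinearMap.adjoint (↑u⁻¹ : V →L[ℂ] V) φ)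
    refine h4.congr fun n => ?_
    rw [ContinuousLinearMap.adjoint_inner_left, ← hu, ← ContinuousLinearMap.mul_apply,
      Units.inv_mul]
    rfl
  refine tendsto_of_subseq_tendsto fun ns hns => ?_
  obtain ⟨K, hK, hKs⟩ := hJ.image_closedBall_subset_compact C
  have hmem : ∀ n, J (w (ns n)) ∈ K := fun n =>
    hKs ⟨w (ns n), by simpa using hw (ns n), rfl⟩
  obtain ⟨z, -, ms, hms, hz⟩ := hK.tendsto_subseq hmem
  refine ⟨ms, ?_⟩
  have hz0 : z = 0 := by
    refine ext_inner_left ℂ fun ζ => ?_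
    rw [inner_zero_right]
    have h5 : Tendsto (fun n => inner ℂ ζ (J (w (ns (ms n))))) atTop (𝓝 (inner ℂ ζ z)) :=
      tendsto_const_nhds.inner hz
    have h6 : Tendsto (fun n => inner ℂ ζ (J (w (ns (ms n))))) atTop (𝓝 0) := by
      have h7 := (h3 (ContinuousLinearMap.adjoint J ζ)).comp (hns.comp hms.tendsto_atTop)
      refine h7.congr fun n => ?_
      simp only [Function.comp, ContinuousLinearMap.adjoint_inner_left]
    exact tendsto_nhds_unique h5 h6
  subst hz0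
  simpa using hz.norm

end

end Pool.Agent.helper27.Probe
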