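import Pool.Agent.helper27.Probe.Basic
import Pool.Agent.helper61.Probe.M7

/-!
# Module M8 (first part): the Hilbert space of the mixed problem
-/

open MeasureTheory Metric Set Filter Topology
open scoped ContDiff ENNReal

namespace Pool.Agent.helper27.Probe.M8

/-- Rellich's theorem for the open set `U` -/
def Rellich (U : Set E) : Prop :=
  ∀ (v : ℕ → E → ℂ) (g : ℕ → Fin 3 → E → ℂ), (∀ n, H1 U (v n) (g n)) → ∀ C : ℝ,
    (∀ n, en U (v n) (g n) ≤ C) →
    ∃ (φ : ℕ → ℕ) (f : E → ℂ), StrictMono φ ∧ MemLp f 2 (volume.restrict U) ∧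
      Tendsto (fun n => ∫ y in U, ‖v (φ n) y - f y‖ ^ 2) atTop (𝓝 0)

/-- zero boundary values in the sense of `ZeroOuter`, for an arbitrary open set `U` -/
def Zero (Ω U : Set E) (w : E → ℂ) (h : Fin 3 → E → ℂ) : Prop :=
  H1 U w h ∧ ∀ ε : ℝ≥0∞, 0 < ε → ∃ φ, Test Ω φ ∧
    eLpNorm (fun y => w y - φ y) 2 (volume.restrict U) ≤ ε ∧
    ∀ i, eLpNorm (fun y => h i y - pd i φ y) 2 (volume.restrict U) ≤ ε

noncomputable abbrev L (U : Set E) := Lp ℂ 2 (volume.restrict U)

noncomputable abbrev X (U : Set E) := PiLp 2 (fun _ : Option (Fin 3) => L U)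

/-- function and gradient as one family -/
def cmb (w : E → ℂ) (h : Fin 3 → E → ℂ) : Option (Fin 3) → E → ℂ
  | none => w
  | some i => h i

theorem cmb_memLp {U : Set E} {w : E → ℂ} {h : Fin 3 → E → ℂ} (hw : H1 U w h)
    (o : Option (Fin 3)) : MemLp (cmb w h o) 2 (volume.restrict U) := by
  cases o with
  | none => exact hw.memLp
  | some i => exact hw.memLp_grad i

noncomputable def mkX {U : Set E} {f : Option (Fin 3) → E → ℂ}
    (hf : ∀ o, MemLp (f o) 2 (volume.restrict U)) : X U :=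
  WithLp.toLp 2 (fun o => (hf o).toLp (f o))

theorem mkX_ae {U : Set E} {f : Option (Fin 3) → E → ℂ}
    (hf : ∀ o, MemLp (f o) 2 (volume.restrict U)) (o : Option (Fin 3)) :
    (mkX hf o : E → ℂ) =ᵐ[volume.restrict U] f o := (hf o).coeFn_toLp

theorem inner_L {U : Set E} (x y : L U) : inner ℂ x y =
    ∫ z in U, (starRingEnd ℂ) (x z) * y z := by
  rw [L2.inner_def]
  refine integral_congr_ae (Eventually.of_forall fun z => ?_)
  simp only [RCLike.inner_apply]
  ring

theorem inner_X {U : Set E} (x y : X U) : inner ℂ x y =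
    (∫ z in U, (starRingEnd ℂ) (x none z) * y none z) +
      ∑ i, ∫ z in U, (starRingEnd ℂ) (x (some i) z) * y (some i) z := by
  rw [PiLp.inner_apply, Fintype.sum_option]
  simp only [inner_L]

theorem norm_L_sq {U : Set E} (x : L U) : ‖x‖ ^ 2 = sq U x := by
  have h2 : (∫ z in U, (starRingEnd ℂ) (x z) * x z) = ((sq U x : ℝ) : ℂ) := by
    have h3 : ((∫ y in U, ‖x y‖ ^ 2 : ℝ) : ℂ) = ∫ y in U, ((‖x y‖ ^ 2 : ℝ) : ℂ) :=
      integral_ofReal.symm
    unfold sq
    rw [h3]
    refine integral_congr_ae (Eventually.of_forall fun z => ?_)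
    simp only
    rw [Complex.conj_mul']
    push_cast
    rfl
  rw [← inner_self_eq_norm_sq (𝕜 := ℂ), inner_L, h2]
  rfl

theorem norm_X_sq {U : Set E} (x : X U) : ‖x‖ ^ 2 = en U (x none) (fun i => x (some i)) := by
  rw [PiLp.norm_sq_eq_of_L2, Fintype.sum_option]
  simp only [norm_L_sq]
  rfl

theorem sq_congr {U : Set E} {f g : E → ℂ} (h : f =ᵐ[volume.restrict U] g) : sq U f = sq U g := by
  unfold sq
  exact integral_congr_ae (by filter_upwards [h] with z hz; rw [hz])


theorem test_add {Ω : Set E} {φ ψ : E → ℂ} (h : Test Ω φ) (h' : Test Ω ψ) :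
    Test Ω (fun y => φ y + ψ y) where
  smooth := h.smooth.add h'.smooth
  comp := h.comp.add h'.comp
  supp := by
    refine (closure_minimal ?_ ((isClosed_tsupport φ).union (isClosed_tsupport ψ))).trans
      (union_subset h.supp h'.supp)
    intro y hy
    by_contra hcon
    rw [mem_union, not_or] at hcon
    refine hy ?_
    simp only [image_eq_zero_of_notMem_tsupport hcon.1, image_eq_zero_of_notMem_tsupport hcon.2,
      add_zero]

theorem pd_add {φ ψ : E → ℂ} (h : Differentiable ℝ φ) (h' : Differentiable ℝ ψ) (i : Fin 3)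
    (y : E) : pd i (fun y => φ y + ψ y) y = pd i φ y + pd i ψ y := by
  unfold pd
  rw [fderiv_fun_add (h y) (h' y)]
  rfl

theorem test_diff {Ω : Set E} {φ : E → ℂ} (h : Test Ω φ) : Differentiable ℝ φ :=
  h.smooth.differentiable (by simp)

theorem test_conj {Ω : Set E} {φ : E → ℂ} (h : Test Ω φ) :
    Test Ω (fun y => (starRingEnd ℂ) (φ y)) where
  smooth := Complex.conjCLE.contDiff.comp h.smooth
  comp := h.comp.comp_left (by simp)
  supp := (closure_mono (Function.support_comp_subset (by simp) _)).trans h.supp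

theorem pd_conj {φ : E → ℂ} (h : Differentiable ℝ φ) (i : Fin 3) (y : E) :
    pd i (fun y => (starRingEnd ℂ) (φ y)) y = (starRingEnd ℂ) (pd i φ y) := by
  unfold pd
  have h1 : HasFDerivAt (fun y => (starRingEnd ℂ) (φ y))
      ((Complex.conjCLE : ℂ →L[ℝ] ℂ) ∘L fderiv ℝ φ y) y :=
    (Complex.conjCLE : ℂ →L[ℝ] ℂ).hasFDerivAt.comp y (h y).hasFDerivAt
  rw [h1.fderiv]
  rfl

/-- the subspace of (restrictions of) test functions -/
noncomputable def S (Ω U : Set E) : Submodule ℂ (X U) where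
  carrier := {x | ∃ φ, Test Ω φ ∧ x none =ᵐ[volume.restrict U] φ ∧
    ∀ i, x (some i) =ᵐ[volume.restrict U] pd i φ}
  zero_mem' := by
    refine ⟨fun _ => 0, ⟨contDiff_const, HasCompactSupport.zero, by simp [tsupport]⟩, ?_, ?_⟩
    · exact Lp.coeFn_zero _ _ _
    · intro i
      have : pd i (fun _ => (0 : ℂ)) = fun _ => 0 := by funext y; simp [pd]
      rw [this]
      exact Lp.coeFn_zero _ _ _
  add_mem' := by
    rintro x y ⟨φ, hφ, h1, h2⟩ ⟨ψ, hψ, h3, h4⟩
    refine ⟨_, test_add hφ hψ, ?_, fun i => ?_⟩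
    · filter_upwards [Lp.coeFn_add (x none) (y none), h1, h3] with z e1 e2 e3
      change (x none + y none : L U) z = _
      rw [e1, Pi.add_apply, e2, e3]
    · filter_upwards [Lp.coeFn_add (x (some i)) (y (some i)), h2 i, h4 i] with z e1 e2 e3
      change (x (some i) + y (some i) : L U) z = _
      rw [e1, Pi.add_apply, e2, e3, pd_add (test_diff hφ) (test_diff hψ)]
  smul_mem' := by
    rintro c x ⟨φ, hφ, h1, h2⟩
    refine ⟨_, hφ.smul c, ?_, fun i => ?_⟩
    · filter_upwards [Lp.coeFn_smul c (x none), h1] with z e1 e2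
      change (c • x none : L U) z = _
      rw [e1, Pi.smul_apply, e2, smul_eq_mul]
    · filter_upwards [Lp.coeFn_smul c (x (some i)), h2 i] with z e1 e2
      change (c • x (some i) : L U) z = _
      rw [e1, Pi.smul_apply, e2, smul_eq_mul, pd_smul c (test_diff hφ)]

/-- the Hilbert space -/
noncomputable abbrev V (Ω U : Set E) := (S Ω U).topologicalClosure

noncomputable instance (Ω U : Set E) : CompleteSpace (V Ω U) :=
  (Submodule.isClosed_topologicalClosure _).completeSpace_coe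

theorem norm_le_of_comp {U : Set E} (x : X U) {ε : ℝ} (hε : 0 ≤ ε) (h : ∀ o, ‖x o‖ ≤ ε) :
    ‖x‖ ≤ 2 * ε := by
  have h1 : ‖x‖ ^ 2 ≤ (2 * ε) ^ 2 := by
    rw [PiLp.norm_sq_eq_of_L2]
    calc ∑ o, ‖x o‖ ^ 2 ≤ ∑ o : Option (Fin 3), ε ^ 2 :=
          Finset.sum_le_sum fun o _ => pow_le_pow_left₀ (norm_nonneg _) (h o) 2
      _ = (2 * ε) ^ 2 := by simp; ring
  exact le_of_sq_le_sq h1 (by positivity)

theorem eLpNorm_eq {U : Set E} (x y : L U) {f g : E → ℂ} (h1 : x =ᵐ[volume.restrict U] f)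
    (h2 : y =ᵐ[volume.restrict U] g) :
    eLpNorm (fun z => f z - g z) 2 (volume.restrict U) = ENNReal.ofReal ‖x - y‖ := by
  have h3 : (fun z => f z - g z) =ᵐ[volume.restrict U] (x - y : L U) := by
    filter_upwards [Lp.coeFn_sub x y, h1, h2] with z e1 e2 e3
    rw [e1, Pi.sub_apply, e2, e3]
  rw [eLpNorm_congr_ae h3, Lp.norm_def, ENNReal.ofReal_toReal (Lp.eLpNorm_ne_top _)]

/-- elements of `V` have zero boundary values -/
theorem zero_of_mem {Ω U : Set E} (hU : IsOpen U) {x : X U} (hx : x ∈ V Ω U) :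
    Zero Ω U (x none) (fun i => x (some i)) := by
  have happ : ∀ ε : ℝ, 0 < ε → ∃ s ∈ S Ω U, ‖x - s‖ < ε := fun ε hε => by
    have h1 : x ∈ closure (S Ω U : Set (X U)) := hx
    obtain ⟨s, hs, h2⟩ := Metric.mem_closure_iff.1 h1 ε hε
    exact ⟨s, hs, by rwa [← dist_eq_norm]⟩
  refine ⟨⟨Lp.memLp _, fun i => Lp.memLp _, fun φ hφ i => ?_⟩, fun ε hε => ?_⟩
  · -- the weak derivative
    have hp : MemLp (fun y => (starRingEnd ℂ) (pd i φ y)) 2 (volume.restrict U) := by
      have := ((test_conj hφ).memLp_pd i 2 (volume.restrict U))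
      have h2 : pd i (fun y => (starRingEnd ℂ) (φ y)) = fun y => (starRingEnd ℂ) (pd i φ y) :=
        funext fun y => pd_conj (test_diff hφ) i y
      rwa [h2] at this
    have hq : MemLp (fun y => (starRingEnd ℂ) (φ y)) 2 (volume.restrict U) :=
      (test_conj hφ).memLp 2 _
    have e1 : ∀ (z : L U), ∫ y in U, z y * pd i φ y = inner ℂ (hp.toLp _) z := by
      intro z
      rw [inner_L]
      refine integral_congr_ae ?_
      filter_upwards [hp.coeFn_toLp] with y hy
      rw [hy, RCLike.conj_conj]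
      ring
    have e2 : ∀ (z : L U), ∫ y in U, z y * φ y = inner ℂ (hq.toLp _) z := by
      intro z
      rw [inner_L]
      refine integral_congr_ae ?_
      filter_upwards [hq.coeFn_toLp] with y hy
      rw [hy, RCLike.conj_conj]
      ring
    have hcont : Continuous fun z : X U => inner ℂ (hp.toLp _) (z none) +
        inner ℂ (hq.toLp _) (z (some i)) := by fun_prop
    have hS : ∀ s ∈ S Ω U, inner ℂ (hp.toLp _) (s none) + inner ℂ (hq.toLp _) (s (some i)) = 0 := by
      rintro s ⟨ψ, hψ, h1, h2⟩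
      rw [← e1, ← e2]
      have h3 := (hψ.H1 hU).weak φ hφ i
      have h4 : ∫ y in U, (s none : E → ℂ) y * pd i φ y = ∫ y in U, ψ y * pd i φ y :=
        integral_congr_ae (by filter_upwards [h1] with y hy; rw [hy])
      have h5 : ∫ y in U, (s (some i) : E → ℂ) y * φ y = ∫ y in U, pd i ψ y * φ y :=
        integral_congr_ae (by filter_upwards [h2 i] with y hy; rw [hy])
      rw [h4, h5, h3]
      ring
    have hcl : ∀ z ∈ closure (S Ω U : Set (X U)), inner ℂ (hp.toLp _) (z none) +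
        inner ℂ (hq.toLp _) (z (some i)) = 0 := by
      have hc : IsClosed {z : X U | inner ℂ (hp.toLp _) (z none) +
        inner ℂ (hq.toLp _) (z (some i)) = 0} := isClosed_eq hcont continuous_const
      exact closure_minimal hS hc
    rw [e1, e2]
    exact eq_neg_of_add_eq_zero_left (hcl x hx)
  · -- approximation
    rcases eq_or_ne ε ⊤ with rfl | hεt
    · obtain ⟨s, ⟨φ, hφ, -⟩, -⟩ := happ 1 one_pos
      exact ⟨φ, hφ, le_top, fun i => le_top⟩
    · obtain ⟨s, ⟨φ, hφ, h1, h2⟩, h3⟩ := happ ε.toReal (ENNReal.toReal_pos hε.ne' hεt)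
      have h4 : ∀ o, ‖x o - s o‖ ≤ ε.toReal := fun o =>
        (PiLp.norm_apply_le (x - s) o).trans h3.le
      refine ⟨φ, hφ, ?_, fun i => ?_⟩
      · rw [eLpNorm_eq (x none) (s none) EventuallyEq.rfl h1]
        exact ENNReal.ofReal_le_of_le_toReal (h4 none)
      · rw [eLpNorm_eq (x (some i)) (s (some i)) EventuallyEq.rfl (h2 i)]
        exact ENNReal.ofReal_le_of_le_toReal (h4 (some i))

/-- functions with zero boundary values give elements of `V` -/
theorem mem_of_zero {Ω U : Set E} {w : E → ℂ} {h : Fin 3 → E → ℂ} (hw : Zero Ω U w h) :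
    mkX (cmb_memLp hw.1) ∈ V Ω U := by
  change mkX (cmb_memLp hw.1) ∈ closure (S Ω U : Set (X U))
  rw [Metric.mem_closure_iff]
  intro ε hε
  obtain ⟨φ, hφ, h1, h2⟩ := hw.2 (ENNReal.ofReal (ε / 4)) (by simpa using by positivity)
  have hm : ∀ o, MemLp (cmb φ (fun i => pd i φ) o) 2 (volume.restrict U) := fun o => by
    cases o with
    | none => exact hφ.memLp _ _
    | some i => exact hφ.memLp_pd i _ _
  refine ⟨mkX hm, ⟨φ, hφ, mkX_ae hm none, fun i => mkX_ae hm (some i)⟩, ?_⟩
  rw [dist_eq_norm]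
  have h3 : ∀ o, ‖(mkX (cmb_memLp hw.1) - mkX hm) o‖ ≤ ε / 4 := by
    intro o
    have h4 := eLpNorm_eq (mkX (cmb_memLp hw.1) o) (mkX hm o) (mkX_ae (cmb_memLp hw.1) o)
      (mkX_ae hm o)
    have h5 : eLpNorm (fun z => cmb w h o z - cmb φ (fun i => pd i φ) o z) 2 (volume.restrict U) ≤
        ENNReal.ofReal (ε / 4) := by
      cases o with
      | none => exact h1
      | some i => exact h2 i
    rw [h4, ENNReal.ofReal_le_ofReal_iff (by positivity)] at h5
    exact h5
  have := norm_le_of_comp _ (by positivity) h3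
  linarith

end Pool.Agent.helper27.Probe.M8
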