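import Pool.Agent.helper61.Probe.M8a

/-!
# Module M8 (second part): the mixed problem, assuming Rellich's theorem
-/

open MeasureTheory Metric Set Filter Topology
open scoped ContDiff ENNReal

namespace Pool.Agent.helper27.Probe.M8

/-- the embedding into `L²` -/
noncomputable def J (Ω U : Set E) : V Ω U →L[ℂ] L U :=
  (PiLp.proj 2 (fun _ : Option (Fin 3) => L U) none : X U →L[ℂ] L U) ∘L (V Ω U).subtypeL

theorem J_apply {Ω U : Set E} (x : V Ω U) : J Ω U x = (x : X U) none := rfl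

theorem J_compact {Ω U : Set E} (hU : IsOpen U) (hR : Rellich U) :
    IsCompactOperator (J Ω U) := by
  refine (isCompactOperator_iff_isCompact_closure_image_closedBall (J Ω U : V Ω U →ₗ[ℂ] L U)
    (r := 1) one_pos).2 ?_
  set A := (J Ω U : V Ω U →ₗ[ℂ] L U) '' closedBall 0 1 with hA
  have hseq : ∀ a : ℕ → L U, (∀ n, a n ∈ A) → ∃ (φ : ℕ → ℕ) (z : L U), StrictMono φ ∧
      Tendsto (a ∘ φ) atTop (𝓝 z) := by
    intro a ha
    choose x hx hxa using ha
    have h1 : ∀ n, en U ((x n : X U) none) (fun i => (x n : X U) (some i)) ≤ 1 := by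
      intro n
      rw [← norm_X_sq]
      have h2 : ‖(x n : X U)‖ ≤ 1 := by
        have := hx n
        rw [mem_closedBall_zero_iff] at this
        exact this
      exact pow_le_one₀ (norm_nonneg _) h2
    obtain ⟨φ, f, hφ, hf, hlim⟩ := hR _ _ (fun n => (zero_of_mem hU (x n).2).1) 1 h1
    refine ⟨φ, hf.toLp f, hφ, ?_⟩
    rw [tendsto_iff_norm_sub_tendsto_zero]
    have h3 : ∀ n, ‖(a ∘ φ) n - hf.toLp f‖ ^ 2 =
        ∫ y in U, ‖((x (φ n) : X U) none : E → ℂ) y - f y‖ ^ 2 := by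
      intro n
      rw [norm_L_sq]
      unfold sq
      refine integral_congr_ae ?_
      have h4 : (a ∘ φ) n = (x (φ n) : X U) none := (hxa (φ n)).symm
      rw [h4]
      filter_upwards [Lp.coeFn_sub ((x (φ n) : X U) none) (hf.toLp f), hf.coeFn_toLp] with y e1 e2
      rw [e1, Pi.sub_apply, e2]
    have h5 : Tendsto (fun n => ‖(a ∘ φ) n - hf.toLp f‖ ^ 2) atTop (𝓝 0) := by
      simpa only [h3] using hlim
    have h6 := h5.sqrt
    simpa [Real.sqrt_sq (norm_nonneg _)] using h6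
  rw [isCompact_iff_isSeqCompact]
  intro b hb
  have h1 : ∀ n : ℕ, ∃ a ∈ A, dist (b n) a < 1 / ((n : ℝ) + 1) := fun n =>
    Metric.mem_closure_iff.1 (hb n) _ (by positivity)
  choose a ha hab using h1
  obtain ⟨φ, z, hφ, hz⟩ := hseq a ha
  refine ⟨z, ?_, φ, hφ, ?_⟩
  · exact mem_closure_of_tendsto hz (Eventually.of_forall fun n => ha _)
  · rw [tendsto_iff_dist_tendsto_zero] at hz ⊢
    have h2 : Tendsto (fun n => 1 / (((φ n : ℕ) : ℝ) + 1)) atTop (𝓝 0) :=
      tendsto_one_div_add_atTop_nhds_zero_nat.comp hφ.tendsto_atTop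
    have h3 := h2.add hz
    rw [add_zero] at h3
    refine squeeze_zero (fun n => dist_nonneg) (fun n => ?_) h3
    exact (dist_triangle _ (a (φ n)) _).trans (add_le_add (hab _).le le_rfl)

/-- the sesquilinear form of the problem, for a test function -/
theorem form_eq {Ω U : Set E} (k : ℝ) {φ : E → ℂ} (hφ : Test Ω φ) (s x : X U)
    (h1 : s none =ᵐ[volume.restrict U] fun y => (starRingEnd ℂ) (φ y))
    (h2 : ∀ i, s (some i) =ᵐ[volume.restrict U] pd i (fun y => (starRingEnd ℂ) (φ y)))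
    {w : E → ℂ} {h : Fin 3 → E → ℂ} (hw : x none =ᵐ[volume.restrict U] w)
    (hh : ∀ i, x (some i) =ᵐ[volume.restrict U] h i)
    (hm : ∀ i, MemLp (h i) 2 (volume.restrict U)) :
    inner ℂ s x - ((k ^ 2 + 1 : ℝ) : ℂ) * inner ℂ (s none) (x none) =
      (∫ y in U, ∑ i, h i y * pd i φ y) - (k : ℂ) ^ 2 * ∫ y in U, w y * φ y := by
  have e1 : (∫ z in U, (starRingEnd ℂ) (s none z) * x none z) = ∫ y in U, w y * φ y := by
    refine integral_congr_ae ?_
    filter_upwards [h1, hw] with y a1 a2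
    rw [a1, a2, RCLike.conj_conj, mul_comm]
  have e2 : ∀ i, (∫ z in U, (starRingEnd ℂ) (s (some i) z) * x (some i) z) =
      ∫ y in U, h i y * pd i φ y := by
    intro i
    refine integral_congr_ae ?_
    filter_upwards [h2 i, hh i] with y a1 a2
    rw [a1, a2, pd_conj (test_diff hφ), RCLike.conj_conj, mul_comm]
  rw [inner_X, inner_L, e1]
  simp only [e2]
  have e3 : (∫ y in U, ∑ i, h i y * pd i φ y) = ∑ i, ∫ y in U, h i y * pd i φ y :=
    integral_finsetSum _ fun i _ => (hm i).integrable_mul (hφ.memLp_pd i 2 _)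
  rw [e3]
  push_cast
  ring

/-- elements given by test functions -/
theorem exists_test {Ω U : Set E} {φ : E → ℂ} (hφ : Test Ω φ) :
    ∃ s : V Ω U, (s : X U) ∈ S Ω U ∧ (s : X U) none =ᵐ[volume.restrict U] φ ∧
      ∀ i, (s : X U) (some i) =ᵐ[volume.restrict U] pd i φ := by
  have hm : ∀ o, MemLp (cmb φ (fun i => pd i φ) o) 2 (volume.restrict U) := fun o => by
    cases o with
    | none => exact hφ.memLp _ _
    | some i => exact hφ.memLp_pd i _ _
  have hs : mkX hm ∈ S Ω U := ⟨φ, hφ, mkX_ae hm none, fun i => mkX_ae hm (some i)⟩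
  exact ⟨⟨mkX hm, Submodule.le_topologicalClosure _ hs⟩, hs, mkX_ae hm none,
    fun i => mkX_ae hm (some i)⟩

/-- uniqueness for the homogeneous problem -/
def NotEig (k : ℝ) (Ω U : Set E) : Prop :=
  ∀ w h, Zero Ω U w h → WeakHelmholtz k U Ω w h → w =ᵐ[volume.restrict U] 0

theorem hinj {k : ℝ} {Ω U : Set E} (hU : IsOpen U) (hN : NotEig k Ω U) (w : V Ω U)
    (hw : ∀ φ : V Ω U, inner ℂ (φ : X U) (w : X U) -
      ((k ^ 2 + 1 : ℝ) : ℂ) * inner ℂ (J Ω U φ) (J Ω U w) = 0) :
    w = 0 := by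
  have h1 := zero_of_mem hU w.2
  have h2 : WeakHelmholtz k U Ω ((w : X U) none) (fun i => (w : X U) (some i)) := by
    intro φ hφ
    obtain ⟨s, -, hs1, hs2⟩ := exists_test (U := U) (test_conj hφ)
    have h3 := form_eq k hφ (s : X U) (w : X U) hs1 hs2 EventuallyEq.rfl (fun i => EventuallyEq.rfl)
      (fun i => Lp.memLp _)
    have h4 := hw s
    rw [J_apply, J_apply] at h4
    rw [h3] at h4
    exact sub_eq_zero.1 h4
  have h3 := hN _ _ h1 h2
  have h4 : J Ω U w = 0 := by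
    rw [J_apply]
    exact (Lp.eq_zero_iff_ae_eq_zero).2 h3
  have h5 := hw w
  rw [h4, inner_zero_right, mul_zero, sub_zero, inner_self_eq_zero] at h5
  exact Subtype.ext h5

/-- existence of the solution of the inhomogeneous problem -/
theorem exists_w {k : ℝ} {Ω U : Set E} (hU : IsOpen U) (hR : Rellich U) (hN : NotEig k Ω U)
    {v : E → ℂ} {g : Fin 3 → E → ℂ} (hv : H1 U v g) :
    ∃ w h, Zero Ω U w h ∧ WeakHelmholtz k U Ω (fun y => v y + w y) (fun i y => g i y + h i y) := by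
  set z : X U := mkX (cmb_memLp hv) with hz
  -- the functional
  set F : V Ω U →L[ℂ] ℂ := -(innerSL ℂ z ∘L (V Ω U).subtypeL -
    ((k ^ 2 + 1 : ℝ) : ℂ) • (innerSL ℂ (z none) ∘L J Ω U)) with hF
  obtain ⟨w, hw⟩ := fredholm_exists (J Ω U) (J_compact hU hR) (k ^ 2 + 1)
    (fun w hw => hinj hU hN w hw) F
  refine ⟨(w : X U) none, fun i => (w : X U) (some i), zero_of_mem hU w.2, fun φ hφ => ?_⟩
  obtain ⟨s, -, hs1, hs2⟩ := exists_test (U := U) (test_conj hφ)
  have h1 := form_eq k hφ (s : X U) (w : X U) hs1 hs2 EventuallyEq.rfl (fun i => EventuallyEq.rfl)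
      (fun i => Lp.memLp _)
  have h2 := form_eq k hφ (s : X U) z hs1 hs2 (mkX_ae (cmb_memLp hv) none)
    (fun i => mkX_ae (cmb_memLp hv) (some i)) hv.memLp_grad
  have h3 : inner ℂ (w : X U) (s : X U) - ((k ^ 2 + 1 : ℝ) : ℂ) * inner ℂ ((w : X U) none)
      ((s : X U) none) = -(inner ℂ z (s : X U) - ((k ^ 2 + 1 : ℝ) : ℂ) *
        inner ℂ (z none) ((s : X U) none)) := by
    have := hw s
    rw [hF] at this
    exact this
  have h4 := congrArg (starRingEnd ℂ) h3
  simp only [map_sub, map_mul, map_neg, inner_conj_symm, Complex.conj_ofReal] at h4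
  rw [h1, h2] at h4
  have i1 : ∀ i, Integrable (fun y => g i y * pd i φ y) (volume.restrict U) := fun i =>
    (hv.memLp_grad i).integrable_mul (hφ.memLp_pd i 2 _)
  have i2 : ∀ i, Integrable (fun y => ((w : X U) (some i) : E → ℂ) y * pd i φ y)
      (volume.restrict U) := fun i => (Lp.memLp _).integrable_mul (hφ.memLp_pd i 2 _)
  have i3 : Integrable (fun y => v y * φ y) (volume.restrict U) :=
    hv.memLp.integrable_mul (hφ.memLp 2 _)
  have i4 : Integrable (fun y => ((w : X U) none : E → ℂ) y * φ y) (volume.restrict U) :=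
    (Lp.memLp _).integrable_mul (hφ.memLp 2 _)
  simp only [add_mul, Finset.sum_add_distrib]
  rw [integral_add (integrable_finsetSum _ fun i _ => i1 i)
    (integrable_finsetSum _ fun i _ => i2 i), integral_add i3 i4]
  simp only [cmb] at h4
  linear_combination h4

/-- weakly null sequences are strongly null in `L²` -/
theorem w_null {k : ℝ} {Ω U : Set E} (hU : IsOpen U) (hR : Rellich U) (hN : NotEig k Ω U)
    {w : ℕ → E → ℂ} {h : ℕ → Fin 3 → E → ℂ} (hw : ∀ n, Zero Ω U (w n) (h n)) {C : ℝ}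
    (hC : ∀ n, en U (w n) (h n) ≤ C)
    (hφ : ∀ φ, Test Ω φ → Tendsto (fun n => (∫ y in U, ∑ i, h n i y * pd i φ y) -
      (k : ℂ) ^ 2 * ∫ y in U, w n y * φ y) atTop (𝓝 0)) :
    Tendsto (fun n => sq U (w n)) atTop (𝓝 0) := by
  set x : ℕ → V Ω U := fun n => ⟨mkX (cmb_memLp (hw n).1), mem_of_zero (hw n)⟩ with hx
  have hx1 : ∀ n, ((x n : X U) none : E → ℂ) =ᵐ[volume.restrict U] w n := fun n =>
    mkX_ae (cmb_memLp (hw n).1) none
  have hx2 : ∀ n i, ((x n : X U) (some i) : E → ℂ) =ᵐ[volume.restrict U] h n i := fun n i =>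
    mkX_ae (cmb_memLp (hw n).1) (some i)
  have hC0 : 0 ≤ C := (en_nonneg _ _ _).trans (hC 0)
  have hxn : ∀ n, ‖x n‖ ≤ √C := by
    intro n
    refine Real.le_sqrt_of_sq_le ?_
    have e : ‖x n‖ = ‖(x n : X U)‖ := rfl
    rw [e, norm_X_sq]
    refine le_trans (le_of_eq ?_) (hC n)
    unfold en
    rw [sq_congr (hx1 n)]
    congr 1
    exact Finset.sum_congr rfl fun i _ => sq_congr (hx2 n i)
  have hdense : Dense {s : V Ω U | (s : X U) ∈ S Ω U} := by
    rw [Metric.dense_iff]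
    intro s r hr
    have h1 : (s : X U) ∈ closure (S Ω U : Set (X U)) := s.2
    obtain ⟨t, ht, h2⟩ := Metric.mem_closure_iff.1 h1 r hr
    refine ⟨⟨t, Submodule.le_topologicalClosure _ ht⟩, ?_, ht⟩
    rw [mem_ball, dist_comm]
    exact h2
  have h1 := fredholm_null (J Ω U) (J_compact hU hR) (k ^ 2 + 1)
    (fun w hw => hinj hU hN w hw) x (√C) hxn _ hdense (fun s hs => by
      obtain ⟨φ, hφ', hs1, hs2⟩ := hs
      have h2 := hφ _ (test_conj hφ')
      refine h2.congr fun n => ?_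
      have h3 := form_eq k (test_conj hφ') (s : X U) (x n : X U)
        (by simpa only [RCLike.conj_conj] using hs1)
        (by simpa only [RCLike.conj_conj] using hs2) (hx1 n) (hx2 n) (hw n).1.memLp_grad
      exact h3.symm)
  have h2 := h1.pow 2
  rw [zero_pow two_ne_zero] at h2
  refine h2.congr fun n => ?_
  rw [norm_L_sq]
  exact sq_congr (hx1 n)

end Pool.Agent.helper27.Probe.M8
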